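import Mathlib

set_option autoImplicit false

namespace Pool.Agent.Results.MP_58bd73_nt.NotDensityZero

open PowerSeries Filter Topology

/-- Generating series of the Prouhet-Thue-Morse sequence `(-1)^(s_2 n)`. -/
noncomputable def tmSeries : PowerSeries ℤ :=
  PowerSeries.mk fun n => (-1 : ℤ) ^ (Nat.digits 2 n).sum

/-- `t m n` is the `m`-fold Cauchy convolution of the Thue-Morse sequence. -/
noncomputable def t (m n : ℕ) : ℤ := PowerSeries.coeff n (tmSeries ^ m)

/-- The exceptional set of the problem. -/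
def exc (m j : ℕ) : Set ℕ := {n | Int.sign (t m (3 * n + j)) ≠ (-1) ^ j}

lemma digsum_even (n : ℕ) : (Nat.digits 2 (2 * n)).sum = (Nat.digits 2 n).sum := by
  rcases Nat.eq_zero_or_pos n with rfl | h
  · simp
  · rw [Nat.digits_base_mul (by norm_num) h]; simp

lemma digsum_odd (n : ℕ) : (Nat.digits 2 (2 * n + 1)).sum = (Nat.digits 2 n).sum + 1 := by
  have := Nat.digits_add 2 (by norm_num) 1 n (by norm_num) (Or.inl one_ne_zero)
  rw [add_comm (2 * n) 1, this]; simp [add_comm]

lemma tm_eq : tmSeries = (1 - X) * expand 2 two_ne_zero tmSeries := by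
  ext n
  rw [sub_mul, one_mul, map_sub]
  rcases Nat.even_or_odd' n with ⟨k, rfl | rfl⟩
  · rw [coeff_expand_mul]
    have : coeff (2 * k) (X * expand 2 two_ne_zero tmSeries) = 0 := by
      rcases k with _ | k
      · simp
      · rw [show 2 * (k + 1) = (2 * k + 1) + 1 by ring, coeff_succ_X_mul,
          coeff_expand_of_not_dvd _ _ _ (by omega)]
    rw [this]; simp [tmSeries, digsum_even]
  · rw [coeff_expand_of_not_dvd _ _ _ (by omega), coeff_succ_X_mul, coeff_expand_mul]
    simp only [tmSeries, coeff_mk, digsum_odd, pow_succ]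
    ring

lemma sq_eq : tmSeries ^ 2 = expand 2 two_ne_zero (tmSeries ^ 2)
    - 2 * (X * expand 2 two_ne_zero (tmSeries ^ 2))
    + X * (X * expand 2 two_ne_zero (tmSeries ^ 2)) := by
  conv_lhs => rw [tm_eq]
  rw [map_pow]; ring

lemma t_odd (n : ℕ) : t 2 (2 * n + 1) = -2 * t 2 n := by
  unfold t
  conv_lhs => rw [sq_eq]
  have h2 : (2 : PowerSeries ℤ) = C 2 := by simp
  rw [map_add, map_sub, h2, coeff_C_mul, coeff_succ_X_mul, coeff_succ_X_mul,
    coeff_expand_of_not_dvd _ _ _ (by omega), coeff_expand_mul]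
  have : coeff (2 * n) (X * expand 2 two_ne_zero (tmSeries ^ 2)) = 0 := by
    rcases n with _ | k
    · simp
    · rw [show 2 * (k + 1) = (2 * k + 1) + 1 by ring, coeff_succ_X_mul,
        coeff_expand_of_not_dvd _ _ _ (by omega)]
  rw [this]; ring

lemma t_even (n : ℕ) : t 2 (2 * n + 2) = t 2 (n + 1) + t 2 n := by
  unfold t
  conv_lhs => rw [sq_eq]
  have h2 : (2 : PowerSeries ℤ) = C 2 := by simp
  rw [map_add, map_sub, h2, coeff_C_mul, show 2 * n + 2 = (2 * n + 1) + 1 by ring,
    coeff_succ_X_mul, coeff_succ_X_mul, coeff_succ_X_mul,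
    coeff_expand_of_not_dvd _ _ _ (show ¬ 2 ∣ 2 * n + 1 by omega), coeff_expand_mul,
    show 2 * n + 1 + 1 = 2 * (n + 1) by ring, coeff_expand_mul]
  ring

lemma ident (n : ℕ) :
    8 * t 2 (n + 1) + 7 * t 2 (16 * n + 16) + 5 * t 2 (128 * n + 212) = 0 := by
  have a1 := t_odd n
  have a2 := t_even n
  have a3 := t_odd (n + 1)
  have b3 := t_odd (2 * n + 1)
  have b4 := t_even (2 * n + 1)
  have b5 := t_odd (2 * n + 2)
  have b6 := t_even (2 * n + 2)
  have c7 := t_odd (4 * n + 3)
  have c8 := t_even (4 * n + 3)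
  have d16 := t_even (8 * n + 7)
  have c12 := t_even (4 * n + 5)
  have c13 := t_odd (4 * n + 6)
  have d26 := t_even (8 * n + 12)
  have d25 := t_odd (8 * n + 12)
  have e52 := t_even (16 * n + 25)
  have e53 := t_odd (16 * n + 26)
  have f105 := t_odd (32 * n + 52)
  have f106 := t_even (32 * n + 52)
  have g212 := t_even (64 * n + 105)
  ring_nf at *
  linarith

lemma one_of (k : ℕ) :
    k + 1 ∈ exc 2 0 ∨ 16 * (k + 1) ∈ exc 2 0 ∨ 128 * (k + 1) + 28 ∈ exc 2 0 := by
  by_contra h
  simp only [exc, Set.mem_ofPred_eq, not_or, ne_eq, not_not, pow_zero, add_zero,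
    Int.sign_eq_one_iff_pos] at h
  obtain ⟨h1, h2, h3⟩ := h
  have := ident (3 * k + 2)
  rw [show 3 * k + 2 + 1 = 3 * (k + 1) by ring,
    show 16 * (3 * k + 2) + 16 = 3 * (16 * (k + 1)) by ring,
    show 128 * (3 * k + 2) + 212 = 3 * (128 * (k + 1) + 28) by ring] at this
  linarith

lemma count (K : ℕ) : K ≤ 3 * (exc 2 0 ∩ Set.Iio (128 * K + 29)).ncard := by
  classical
  set S := exc 2 0 ∩ Set.Iio (128 * K + 29) with hS
  have hfin : S.Finite := (Set.finite_Iio _).subset Set.inter_subset_right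
  have key : ∀ f : ℕ → ℕ, Function.Injective f →
      ((Finset.range K).filter fun k => f k ∈ S).card ≤ S.ncard := by
    intro f hf
    rw [Set.ncard_eq_toFinset_card S hfin]
    refine Finset.card_le_card_of_injOn f ?_ hf.injOn
    intro k hk
    simpa using (Finset.mem_filter.mp hk).2
  have h1 := key (fun k => k + 1) (fun a b h => by simpa using h)
  have h2 := key (fun k => 16 * (k + 1)) (fun a b h => by simp only at h; omega)
  have h3 := key (fun k => 128 * (k + 1) + 28) (fun a b h => by simp only at h; omega)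
  have hsub : Finset.range K ⊆
      ((Finset.range K).filter fun k => k + 1 ∈ S) ∪
      ((Finset.range K).filter fun k => 16 * (k + 1) ∈ S) ∪
      ((Finset.range K).filter fun k => 128 * (k + 1) + 28 ∈ S) := by
    intro k hk
    have hk' := Finset.mem_range.mp hk
    simp only [Finset.mem_union, Finset.mem_filter, hk, true_and, hS, Set.mem_inter_iff,
      Set.mem_Iio]
    rcases one_of k with h | h | h
    · exact Or.inl (Or.inl ⟨h, by omega⟩)
    · exact Or.inl (Or.inr ⟨h, by omega⟩)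
    · exact Or.inr ⟨h, by omega⟩
  have h4 := Finset.card_le_card hsub
  have h5 := Finset.card_union_le (((Finset.range K).filter fun k => k + 1 ∈ S) ∪
      ((Finset.range K).filter fun k => 16 * (k + 1) ∈ S))
      ((Finset.range K).filter fun k => 128 * (k + 1) + 28 ∈ S)
  have h6 := Finset.card_union_le ((Finset.range K).filter fun k => k + 1 ∈ S)
      ((Finset.range K).filter fun k => 16 * (k + 1) ∈ S)
  rw [Finset.card_range] at h4
  omega

theorem result :
    ¬ (∀ m : ℕ, 2 ≤ m → ∀ j : ℕ, j ≤ 1 →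
        (exc m j).Infinite ∧
        Tendsto (fun N : ℕ => ((exc m j ∩ Set.Iio N).ncard : ℝ) / (N : ℝ)) atTop (𝓝 0)) := by
  intro h
  have h0 := (h 2 le_rfl 0 (by norm_num)).2
  have hev := h0.eventually (gt_mem_nhds (show (0 : ℝ) < 1 / 1000 by norm_num))
  obtain ⟨N0, hN0⟩ := eventually_atTop.mp hev
  have h1 := hN0 (128 * (N0 + 1) + 29) (by omega)
  have h2 := count (N0 + 1)
  have hpos : (0 : ℝ) < ((128 * (N0 + 1) + 29 : ℕ) : ℝ) := by positivity
  rw [div_lt_iff₀ hpos] at h1
  have h3 : ((N0 + 1 : ℕ) : ℝ) ≤ 3 * ((exc 2 0 ∩ Set.Iio (128 * (N0 + 1) + 29)).ncard : ℝ) := by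
    exact_mod_cast h2
  push_cast at h1 h3
  have : (0 : ℝ) ≤ N0 := by positivity
  linarith

end Pool.Agent.Results.MP_58bd73_nt.NotDensityZero
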